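import Mathlib

set_option autoImplicit false
set_option linter.unusedSectionVars false

/-! # Pairwise compatibility graphs and their generalizations -/

namespace Pool.Agent.R39.PCG

/-- A finite tree with nonnegative real edge weights whose leaves (vertices of degree one) are
identified with the elements of `V` by the bijection `leaf`. -/
structure WTree (V : Type) where
  /-- the vertices of the tree -/
  W : Type
  finite : Finite W
  /-- the tree -/
  T : SimpleGraph W
  isTree : T.IsTree
  /-- the edge weights -/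
  w : Sym2 W → ℝ
  nonneg : ∀ e ∈ T.edgeSet, 0 ≤ w e
  /-- the leaf belonging to an element of `V` -/
  leaf : V → W
  leaf_injective : Function.Injective leaf
  range_leaf : Set.range leaf = {x | (T.neighborSet x).ncard = 1}

/-- `d u v`: the total weight of the unique path between the leaves `u` and `v`. -/
noncomputable def WTree.d {V : Type} (τ : WTree V) (u v : V) : ℝ :=
  (((τ.isTree.existsUnique_path (τ.leaf u) (τ.leaf v)).choose.edges).map τ.w).sum

/-- An interval of nonnegative reals (open, closed, half open, unbounded; possibly empty). -/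
def IsInterval (I : Set ℝ) : Prop := I.OrdConnected ∧ I ⊆ Set.Ici 0

/-- `G` is a pairwise compatibility graph. -/
def IsPCG {V : Type} (G : SimpleGraph V) : Prop :=
  ∃ (τ : WTree V) (I : Set ℝ), IsInterval I ∧ ∀ u v, u ≠ v → (G.Adj u v ↔ τ.d u v ∈ I)

/-- `G` is a `k`-interval-PCG: one tree and `k` pairwise disjoint intervals. -/
def IsIntervalPCG (k : ℕ) {V : Type} (G : SimpleGraph V) : Prop :=
  ∃ (τ : WTree V) (I : Fin k → Set ℝ), (∀ i, IsInterval (I i)) ∧
    (∀ i j, i ≠ j → Disjoint (I i) (I j)) ∧
    ∀ u v, u ≠ v → (G.Adj u v ↔ ∃ i, τ.d u v ∈ I i)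

/-- `G` is an OR-`k`-PCG: the union of `k` PCGs on the same vertex set. -/
def IsOrPCG (k : ℕ) {V : Type} (G : SimpleGraph V) : Prop :=
  ∃ (τ : Fin k → WTree V) (I : Fin k → Set ℝ), (∀ i, IsInterval (I i)) ∧
    ∀ u v, u ≠ v → (G.Adj u v ↔ ∃ i, (τ i).d u v ∈ I i)

/-- `G` is an AND-`k`-PCG: the intersection of `k` PCGs on the same vertex set. -/
def IsAndPCG (k : ℕ) {V : Type} (G : SimpleGraph V) : Prop :=
  ∃ (τ : Fin k → WTree V) (I : Fin k → Set ℝ), (∀ i, IsInterval (I i)) ∧
    ∀ u v, u ≠ v → (G.Adj u v ↔ ∀ i, (τ i).d u v ∈ I i)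

end Pool.Agent.R39.PCG
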