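import Mathlib
import Pool.Agent.Helper997.TreeMetric
import Pool.Agent.R39.PCG.Defs

set_option autoImplicit false
set_option linter.unusedSectionVars false

/-! # The four-point condition for trees with nonnegative edge weights -/

namespace Pool.Agent.R39.PCG

open Pool.Agent.Helper997.TreeMetric

/-- `d` is the path metric of the tree `T` with nonnegative edge lengths `w`. -/
structure WT {W : Type} (T : SimpleGraph W) (w : Sym2 W → ℝ) (d : W → W → ℝ) : Prop where
  tree : T.IsTree
  pos : ∀ e ∈ T.edgeSet, 0 ≤ w e
  path : ∀ (x y : W) (p : T.Walk x y), p.IsPath → d x y = (p.edges.map w).sum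

variable {W : Type} {T : SimpleGraph W} {w : Sym2 W → ℝ} {d : W → W → ℝ}

lemma WT.self (h : WT T w d) (x : W) : d x x = 0 := by
  rw [h.path x x .nil SimpleGraph.Walk.IsPath.nil]
  simp

lemma WT.symm (h : WT T w d) (x y : W) : d x y = d y x := by
  obtain ⟨p, hp, _⟩ := h.tree.connected.exists_path_of_dist x y
  rw [h.path x y p hp, h.path y x p.reverse hp.reverse]
  simp [SimpleGraph.Walk.edges_reverse, List.map_reverse, List.sum_reverse]

lemma WT.nonneg (h : WT T w d) (x y : W) : 0 ≤ d x y := by
  obtain ⟨p, hp, _⟩ := h.tree.connected.exists_path_of_dist x y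
  rw [h.path x y p hp]
  apply List.sum_nonneg
  intro a ha
  obtain ⟨e, he, rfl⟩ := List.mem_map.mp ha
  exact h.pos e (p.edges_subset_edgeSet he)

lemma WT.add (h : WT T w d) {x y z : W} (hd : T.dist x z = T.dist x y + T.dist y z) :
    d x z = d x y + d y z := by
  obtain ⟨p, hp, hp'⟩ := h.tree.connected.exists_path_of_dist x y
  obtain ⟨q, hq, hq'⟩ := h.tree.connected.exists_path_of_dist y z
  have e1 : (p.append q).IsPath := by
    apply SimpleGraph.Walk.isPath_of_length_eq_dist
    rw [SimpleGraph.Walk.length_append, hp', hq', hd]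
  rw [h.path x z _ e1, h.path x y p hp, h.path y z q hq, SimpleGraph.Walk.edges_append,
    List.map_append, List.sum_append]

lemma WT.step_near (h : WT T w d) {x x' z : W} (hadj : T.Adj x x')
    (hz : T.dist x z = T.dist x' z + 1) : d x z = d x x' + d x' z := by
  apply h.add
  rw [SimpleGraph.dist_eq_one_iff_adj.mpr hadj, hz, add_comm]

lemma WT.tri (h : WT T w d) : ∀ (n : ℕ) (x y z : W), T.dist x y = n →
    d x z ≤ d x y + d y z := by
  intro n
  induction n with
  | zero =>
    intro x y z hxy
    have : x = y := h.tree.connected.dist_eq_zero_iff.mp hxy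
    subst this
    rw [h.self]
    linarith
  | succ n ih =>
    intro x y z hxy
    obtain ⟨x', hadj, hx'⟩ := exists_step h.tree.connected hxy
    have e1 := h.step_near hadj (by omega : T.dist x y = T.dist x' y + 1)
    have e2 := ih x' y z hx'
    have e3 := h.nonneg x x'
    rcases step_cases h.tree z hadj with hz | hz
    · have := h.step_near hadj hz
      linarith
    · have e4 := h.step_near hadj.symm hz
      have e5 := h.nonneg x' x
      linarith

lemma WT.four (h : WT T w d) : ∀ (n : ℕ) (x y z w' : W), T.dist x y = n →
    d x y + d z w' ≤ d x z + d y w' ∨ d x y + d z w' ≤ d x w' + d y z := by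
  intro n
  induction n with
  | zero =>
    intro x y z w' hxy
    have : x = y := h.tree.connected.dist_eq_zero_iff.mp hxy
    subst this
    have t := h.tri _ z x w' rfl
    rw [h.symm z x] at t
    left
    rw [h.self]
    linarith
  | succ n ih =>
    intro x y z w' hxy
    obtain ⟨x', hadj, hx'⟩ := exists_step h.tree.connected hxy
    have e1 := h.step_near hadj (by omega : T.dist x y = T.dist x' y + 1)
    have key : ∀ z w', T.dist x' z = T.dist x z + 1 → d x y + d z w' ≤ d x w' + d y z := by
      intro z w' hz
      have h1 : T.dist x y = T.dist x' y + 1 := by omega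
      have h2 := through_edge h.tree hadj hz _ y rfl h1
      rw [SimpleGraph.dist_comm (u := x) (v := y)] at h2
      have h3 := h.add h2
      have t := h.tri _ z x w' rfl
      rw [h.symm z x] at t
      rw [h.symm y x] at h3
      linarith
    rcases step_cases h.tree z hadj with hz | hz
    · rcases step_cases h.tree w' hadj with hw | hw
      · have e2 := h.step_near hadj hz
        have e3 := h.step_near hadj hw
        rcases ih x' y z w' hx' with h4 | h4
        · left; linarith
        · right; linarith
      · left
        have := key w' z hw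
        rw [h.symm w' z] at this
        exact this
    · right
      exact key z w' hz

/-- a symmetric function satisfying the four-point condition -/
structure FP {V : Type} (d : V → V → ℝ) : Prop where
  symm : ∀ x y, d x y = d y x
  four : ∀ x y z u, d x y + d z u ≤ d x z + d y u ∨ d x y + d z u ≤ d x u + d y z

lemma FP.comap {V U : Type} {d : V → V → ℝ} (h : FP d) (f : U → V) :
    FP (fun x y => d (f x) (f y)) :=
  ⟨fun _ _ => h.symm _ _, fun _ _ _ _ => h.four _ _ _ _⟩

lemma WTree.fp {V : Type} (τ : WTree V) : FP τ.d := by
  have hW : WT τ.T τ.w (fun x y => (((τ.isTree.existsUnique_path x y).choose.edges).map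
      τ.w).sum) := by
    refine ⟨τ.isTree, τ.nonneg, ?_⟩
    intro x y p hp
    have h := τ.isTree.existsUnique_path x y
    have h1 : h.choose = p := h.unique h.choose_spec.1 hp
    rw [h1]
  exact ⟨fun _ _ => hW.symm _ _, fun _ _ _ _ => hW.four _ _ _ _ _ rfl⟩

lemma WTree.d_eq {V : Type} (τ : WTree V) (u v : V) (p : τ.T.Walk (τ.leaf u) (τ.leaf v))
    (hp : p.IsPath) : τ.d u v = (p.edges.map τ.w).sum := by
  have h := τ.isTree.existsUnique_path (τ.leaf u) (τ.leaf v)
  have h1 : h.choose = p := h.unique h.choose_spec.1 hp
  unfold WTree.d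
  rw [h1]

end Pool.Agent.R39.PCG
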