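import Mathlib
import Pool.Agent.R39.PCG.Four

set_option autoImplicit false
set_option linter.unusedSectionVars false

/-! # The leaves of a complete `N`-ary tree and the alternating cograph -/

namespace Pool.Agent.R39.PCG

open Finset Classical

/-- the leaves of the complete `N`-ary tree of depth `h` -/
def Tr (N : ℕ) : ℕ → Type
  | 0 => Unit
  | h + 1 => Fin N × Tr N h

instance instFiniteTr (N : ℕ) : ∀ h, Finite (Tr N h)
  | 0 => inferInstanceAs (Finite Unit)
  | h + 1 => by
    have := instFiniteTr N h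
    exact inferInstanceAs (Finite (Fin N × Tr N h))

/-- `lev h b x y`: the leaves `x ≠ y` first differ at a level whose label is `true`, where the
root has label `b` and the labels alternate -/
def lev (N : ℕ) : (h : ℕ) → Bool → Tr N h → Tr N h → Prop
  | 0, _, _, _ => False
  | h + 1, b, x, y => if x.1 = y.1 then lev N h (!b) x.2 y.2 else b = true

variable {N : ℕ}

lemma lev_same {h : ℕ} {b : Bool} (i : Fin N) (x y : Tr N h) :
    lev N (h + 1) b ((i, x) : Fin N × Tr N h) ((i, y) : Fin N × Tr N h) ↔ lev N h (!b) x y := by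
  show (if i = i then lev N h (!b) x y else b = true) ↔ _
  rw [if_pos rfl]

lemma lev_diff {h : ℕ} {b : Bool} {i j : Fin N} (hij : i ≠ j) (x y : Tr N h) :
    lev N (h + 1) b ((i, x) : Fin N × Tr N h) ((j, y) : Fin N × Tr N h) ↔ b = true := by
  show (if i = j then lev N h (!b) x y else b = true) ↔ _
  rw [if_neg hij]

/-- level preserving maps -/
def Hom {n N h : ℕ} (e : Tr n h → Tr N h) : Prop :=
  ∀ b x y, lev n h b x y → lev N h b (e x) (e y)

lemma vertex_ramsey {C : Type} [Fintype C] (n N : ℕ) (hN : n * Fintype.card C ≤ N)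
    (hC : Nonempty C) : ∀ (h : ℕ) (χ : Tr N h → C),
    ∃ (c : C) (e : Tr n h → Tr N h), Hom e ∧ ∀ x, χ (e x) = c := by
  intro h
  induction h with
  | zero =>
    intro χ
    refine ⟨χ (), fun _ => (), ?_, ?_⟩
    · intro b x y hxy
      exact hxy.elim
    · intro x
      rfl
  | succ h ih =>
    intro χ
    have ih' : ∀ i : Fin N, ∃ (c : C) (e : Tr n h → Tr N h), Hom e ∧
        ∀ x, χ ((i, e x) : Fin N × Tr N h) = c := fun i => ih (fun x => χ ((i, x) : Fin N × Tr N h))
    choose c e he hc using ih'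
    obtain ⟨c0, hc0⟩ : ∃ c0, n ≤ (univ.filter (fun i => c i = c0)).card := by
      by_contra hno
      push Not at hno
      have h1 : (univ : Finset (Fin N)).card = ∑ c0 : C, (univ.filter (fun i => c i = c0)).card :=
        card_eq_sum_card_fiberwise (fun i _ => mem_univ _)
      rw [card_univ, Fintype.card_fin] at h1
      obtain ⟨c1⟩ := hC
      have h2 : ∑ c0 : C, (univ.filter (fun i => c i = c0)).card < ∑ _c0 : C, n :=
        sum_lt_sum_of_nonempty ⟨c1, mem_univ _⟩ (fun c0 _ => hno c0)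
      rw [sum_const, card_univ, smul_eq_mul, mul_comm] at h2
      omega
    obtain ⟨f, hfi, hf⟩ : ∃ f : Fin n → Fin N, Function.Injective f ∧ ∀ a, c (f a) = c0 :=
      ⟨(univ.filter (fun i => c i = c0)).orderEmbOfCardLe hc0,
        ((univ.filter (fun i => c i = c0)).orderEmbOfCardLe hc0).injective,
        fun a => (mem_filter.1 (orderEmbOfCardLe_mem _ hc0 a)).2⟩
    refine ⟨c0, fun x => (f x.1, e (f x.1) x.2), ?_, ?_⟩
    · rintro b ⟨i, x⟩ ⟨j, y⟩ hxy
      by_cases hij : i = j
      · subst hij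
        rw [lev_same] at hxy
        show lev N (h + 1) b ((f i, e (f i) x) : Fin N × Tr N h)
          ((f i, e (f i) y) : Fin N × Tr N h)
        rw [lev_same]
        exact he _ _ _ _ hxy
      · rw [lev_diff hij] at hxy
        show lev N (h + 1) b ((f i, e (f i) x) : Fin N × Tr N h)
          ((f j, e (f j) y) : Fin N × Tr N h)
        rw [lev_diff (fun hh => hij (hfi hh))]
        exact hxy
    · rintro ⟨i, x⟩
      show χ ((f i, e (f i) x) : Fin N × Tr N h) = c0
      rw [hc, hf]

lemma Hom.comp {n m N h : ℕ} {e : Tr m h → Tr N h} {e' : Tr n h → Tr m h} (he : Hom e)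
    (he' : Hom e') : Hom (e ∘ e') := fun b x y hxy => he b _ _ (he' b x y hxy)

lemma exists_hom {n N : ℕ} (hnN : n ≤ N) (h : ℕ) : ∃ e : Tr n h → Tr N h, Hom e := by
  obtain ⟨_, e, he, _⟩ := vertex_ramsey (C := Unit) n N (by simpa using hnN) ⟨()⟩ h (fun _ => ())
  exact ⟨e, he⟩

lemma cross_ramsey {C : Type} [Fintype C] (hC : Nonempty C) (n h : ℕ) : ∃ N0, ∀ N, N0 ≤ N →
    ∀ χ : Tr N h → Tr N h → C, ∃ (c : C) (e e' : Tr n h → Tr N h), Hom e ∧ Hom e' ∧
      ∀ x y, χ (e x) (e' y) = c := by
  obtain ⟨N1, hN1⟩ : ∃ N1, N1 = n * Fintype.card C := ⟨_, rfl⟩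
  have : Fintype (Tr N1 h) := Fintype.ofFinite _
  refine ⟨max N1 (n * Fintype.card (Tr N1 h → C)), ?_⟩
  intro N hN χ
  obtain ⟨e1, he1⟩ := exists_hom ((le_max_left _ _).trans hN) h
  obtain ⟨g, e', he', hg⟩ := vertex_ramsey (C := Tr N1 h → C) n N ((le_max_right _ _).trans hN)
    ⟨fun _ => hC.some⟩ h (fun y => fun x => χ (e1 x) y)
  obtain ⟨c, e2, he2, hc⟩ := vertex_ramsey (C := C) n N1 hN1.ge hC h g
  refine ⟨c, e1 ∘ e2, e', he1.comp he2, he', ?_⟩
  intro x y
  have h1 := congrFun (hg y) (e2 x)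
  rw [hc] at h1
  exact h1

/-- the combinatorial heart: no `k` trees can realize the complement of the alternating cograph
of depth `2k+1` as an OR-`k`-PCG -/
theorem or_main (ι : Type) : ∀ k : ℕ, ∃ N0, ∀ N, N0 ≤ N → ∀ (J : Finset ι), J.card = k →
    ∀ (d : ι → Tr N (2 * k + 1) → Tr N (2 * k + 1) → ℝ) (I : ι → Set ℝ),
      (∀ j ∈ J, FP (d j)) → (∀ j ∈ J, (I j).OrdConnected) →
      (∀ x y, lev N (2 * k + 1) false x y → ∀ j ∈ J, d j x y ∉ I j) →
      (∀ x y, lev N (2 * k + 1) true x y → ∃ j ∈ J, d j x y ∈ I j) → False := by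
  intro k
  induction k with
  | zero =>
    refine ⟨2, ?_⟩
    intro N hN J hJ d I _ _ _ hnon
    obtain ⟨j, hj, _⟩ := hnon ((⟨0, by omega⟩, ()) : Fin N × Tr N 0)
      ((⟨1, by omega⟩, ()) : Fin N × Tr N 0) ((lev_diff (by simp) _ _).2 rfl)
    rw [card_eq_zero] at hJ
    rw [hJ] at hj
    simp at hj
  | succ k ih =>
    obtain ⟨N1, hN1⟩ := ih
    obtain ⟨N2, hN2⟩ := cross_ramsey (C := Fin (k + 1)) ⟨0⟩ (max N1 2) (2 * k + 2)
    refine ⟨max N2 2, ?_⟩
    intro N hN J hJ d I hd hI hedge hnon
    have hNN2 : N2 ≤ N := (le_max_left _ _).trans hN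
    have hN2' : 2 ≤ N := (le_max_right _ _).trans hN
    -- colours
    let eJ : {j // j ∈ J} ≃ Fin (k + 1) := Fintype.equivFinOfCardEq (by
      rw [Fintype.card_coe, hJ])
    let s0 : Fin N := ⟨0, by omega⟩
    let s1 : Fin N := ⟨1, by omega⟩
    have hs : s0 ≠ s1 := by simp [s0, s1]
    have hcol : ∀ x y : Tr N (2 * k + 2), ∃ c : Fin (k + 1),
        d (eJ.symm c).1 ((s0, x) : Fin N × Tr N (2 * k + 2))
          ((s1, y) : Fin N × Tr N (2 * k + 2)) ∈ I (eJ.symm c).1 := by
      intro x y
      obtain ⟨j, hj, hjI⟩ := hnon ((s0, x) : Fin N × Tr N (2 * k + 2))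
        ((s1, y) : Fin N × Tr N (2 * k + 2)) ((lev_diff hs _ _).2 rfl)
      refine ⟨eJ ⟨j, hj⟩, ?_⟩
      rw [Equiv.symm_apply_apply]
      exact hjI
    choose χ hχ using hcol
    obtain ⟨c, e, e', he, he', hc⟩ := hN2 N hNN2 χ
    obtain ⟨j, hj⟩ : ∃ j, j = (eJ.symm c).1 := ⟨_, rfl⟩
    have hjJ : j ∈ J := by
      rw [hj]
      exact (eJ.symm c).2
    have htop : ∀ x y, d j ((s0, e x) : Fin N × Tr N (2 * k + 2))
        ((s1, e' y) : Fin N × Tr N (2 * k + 2)) ∈ I j := by
      intro x y
      have h1 := hχ (e x) (e' y)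
      rw [hc] at h1
      rw [hj]
      exact h1
    -- one side
    have hside : ∀ (s : Fin N) (g : Tr (max N1 2) (2 * k + 2) → Tr N (2 * k + 2)), Hom g →
        ∃ u v, (∀ t ∈ I j, t < d j ((s, g u) : Fin N × Tr N (2 * k + 2))
          ((s, g v) : Fin N × Tr N (2 * k + 2))) := by
      intro s g hg
      have hmpos : 2 ≤ max N1 2 := le_max_right _ _
      -- every child contains a pair with colour `j`
      have hchild : ∀ a : Fin (max N1 2), ∃ z z' : Tr (max N1 2) (2 * k + 1),
          lev (max N1 2) (2 * k + 1) true z z' ∧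
          d j ((s, g ((a, z) : Fin (max N1 2) × Tr (max N1 2) (2 * k + 1))) :
              Fin N × Tr N (2 * k + 2))
            ((s, g ((a, z') : Fin (max N1 2) × Tr (max N1 2) (2 * k + 1))) :
              Fin N × Tr N (2 * k + 2)) ∈ I j := by
        intro a
        by_contra hno
        push Not at hno
        have hmap : ∀ b z z', lev (max N1 2) (2 * k + 1) b z z' →
            lev N (2 * (k + 1) + 1) b
              ((s, g ((a, z) : Fin (max N1 2) × Tr (max N1 2) (2 * k + 1))) :
                Fin N × Tr N (2 * k + 2))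
              ((s, g ((a, z') : Fin (max N1 2) × Tr (max N1 2) (2 * k + 1))) :
                Fin N × Tr N (2 * k + 2)) := by
          intro b z z' hz
          have h1 : lev (max N1 2) (2 * k + 2) (!b)
              ((a, z) : Fin (max N1 2) × Tr (max N1 2) (2 * k + 1))
              ((a, z') : Fin (max N1 2) × Tr (max N1 2) (2 * k + 1)) := by
            rw [lev_same, Bool.not_not]
            exact hz
          have h2 := hg _ _ _ h1
          exact (lev_same s _ _).2 h2
        refine hN1 (max N1 2) (le_max_left _ _) (J.erase j)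
          (by rw [card_erase_of_mem hjJ, hJ]; rfl)
          (fun i z z' => d i ((s, g ((a, z) : Fin (max N1 2) × Tr (max N1 2) (2 * k + 1))) :
                Fin N × Tr N (2 * k + 2))
              ((s, g ((a, z') : Fin (max N1 2) × Tr (max N1 2) (2 * k + 1))) :
                Fin N × Tr N (2 * k + 2))) I ?_ ?_ ?_ ?_
        · intro i hi
          exact (hd i (mem_of_mem_erase hi)).comap (fun z => ((s, g ((a, z) :
            Fin (max N1 2) × Tr (max N1 2) (2 * k + 1))) : Fin N × Tr N (2 * k + 2)))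
        · intro i hi
          exact hI i (mem_of_mem_erase hi)
        · intro z z' hz i hi
          exact hedge _ _ (hmap _ _ _ hz) i (mem_of_mem_erase hi)
        · intro z z' hz
          obtain ⟨i, hi, hiI⟩ := hnon _ _ (hmap _ _ _ hz)
          refine ⟨i, mem_erase.2 ⟨?_, hi⟩, hiI⟩
          rintro rfl
          exact hno z z' hz hiI
      obtain ⟨z0, z0', _, h0⟩ := hchild ⟨0, by omega⟩
      obtain ⟨z1, z1', _, h1⟩ := hchild ⟨1, by omega⟩
      have hcross : ∀ u v : Tr (max N1 2) (2 * k + 1),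
          d j ((s, g ((⟨0, by omega⟩, u) : Fin (max N1 2) × Tr (max N1 2) (2 * k + 1))) :
              Fin N × Tr N (2 * k + 2))
            ((s, g ((⟨1, by omega⟩, v) : Fin (max N1 2) × Tr (max N1 2) (2 * k + 1))) :
              Fin N × Tr N (2 * k + 2)) ∉ I j := by
        intro u v
        apply hedge _ _ _ j hjJ
        have h2 : lev (max N1 2) (2 * k + 2) true
            ((⟨0, by omega⟩, u) : Fin (max N1 2) × Tr (max N1 2) (2 * k + 1))
            ((⟨1, by omega⟩, v) : Fin (max N1 2) × Tr (max N1 2) (2 * k + 1)) :=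
          (lev_diff (by simp) _ _).2 rfl
        have h3 := hg _ _ _ h2
        exact (lev_same s _ _).2 h3
      -- some cross pair is at least an element of `I j`, hence above `I j`
      have hup : ∀ u v : Tr (max N1 2) (2 * k + 1), ∀ t0 ∈ I j,
          t0 ≤ d j ((s, g ((⟨0, by omega⟩, u) : Fin (max N1 2) × Tr (max N1 2) (2 * k + 1))) :
              Fin N × Tr N (2 * k + 2))
            ((s, g ((⟨1, by omega⟩, v) : Fin (max N1 2) × Tr (max N1 2) (2 * k + 1))) :
              Fin N × Tr N (2 * k + 2)) → ∀ t ∈ I j,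
          t < d j ((s, g ((⟨0, by omega⟩, u) : Fin (max N1 2) × Tr (max N1 2) (2 * k + 1))) :
              Fin N × Tr N (2 * k + 2))
            ((s, g ((⟨1, by omega⟩, v) : Fin (max N1 2) × Tr (max N1 2) (2 * k + 1))) :
              Fin N × Tr N (2 * k + 2)) := by
        intro u v t0 ht0 hle t ht
        by_contra hlt
        push Not at hlt
        exact hcross u v ((hI j hjJ).out ht0 ht ⟨hle, hlt⟩)
      have hfour := (hd j hjJ).four
        ((s, g ((⟨0, by omega⟩, z0) : Fin (max N1 2) × Tr (max N1 2) (2 * k + 1))) :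
          Fin N × Tr N (2 * k + 2))
        ((s, g ((⟨0, by omega⟩, z0') : Fin (max N1 2) × Tr (max N1 2) (2 * k + 1))) :
          Fin N × Tr N (2 * k + 2))
        ((s, g ((⟨1, by omega⟩, z1) : Fin (max N1 2) × Tr (max N1 2) (2 * k + 1))) :
          Fin N × Tr N (2 * k + 2))
        ((s, g ((⟨1, by omega⟩, z1') : Fin (max N1 2) × Tr (max N1 2) (2 * k + 1))) :
          Fin N × Tr N (2 * k + 2))
      by_contra hcon
      push Not at hcon
      have key : ∀ u v : Tr (max N1 2) (2 * k + 1), ∀ t0 ∈ I j,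
          d j ((s, g ((⟨0, by omega⟩, u) : Fin (max N1 2) × Tr (max N1 2) (2 * k + 1))) :
              Fin N × Tr N (2 * k + 2))
            ((s, g ((⟨1, by omega⟩, v) : Fin (max N1 2) × Tr (max N1 2) (2 * k + 1))) :
              Fin N × Tr N (2 * k + 2)) < t0 := by
        intro u v t0 ht0
        by_contra hge
        push Not at hge
        obtain ⟨t, ht, hlt⟩ := hcon
          ((⟨0, by omega⟩, u) : Fin (max N1 2) × Tr (max N1 2) (2 * k + 1))
          ((⟨1, by omega⟩, v) : Fin (max N1 2) × Tr (max N1 2) (2 * k + 1))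
        exact absurd (hup u v t0 ht0 hge t ht) (not_lt.2 hlt)
      rcases hfour with h4 | h4
      · have k1 := key z0 z1 _ h0
        have k2 := key z0' z1' _ h1
        linarith
      · have k1 := key z0 z1' _ h0
        have k2 := key z0' z1 _ h1
        linarith
    obtain ⟨u0, v0, h0⟩ := hside s0 e he
    obtain ⟨u1, v1, h1⟩ := hside s1 e' he'
    have hfour := (hd j hjJ).four ((s0, e u0) : Fin N × Tr N (2 * k + 2))
      ((s0, e v0) : Fin N × Tr N (2 * k + 2)) ((s1, e' u1) : Fin N × Tr N (2 * k + 2))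
      ((s1, e' v1) : Fin N × Tr N (2 * k + 2))
    rcases hfour with h4 | h4
    · have k1 := h0 _ (htop u0 u1)
      have k2 := h1 _ (htop v0 v1)
      linarith
    · have k1 := h0 _ (htop u0 v1)
      have k2 := h1 _ (htop v0 u1)
      linarith

end Pool.Agent.R39.PCG
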