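import Mathlib
import Pool.Agent.R39.PCG.Tr

set_option autoImplicit false
set_option linter.unusedSectionVars false

/-! # The AND classes -/

namespace Pool.Agent.R39.PCG

open Finset Classical

/-- no `k` trees can realize the complement of the cograph of depth three as an AND-`k`-PCG -/
theorem and_main (k N : ℕ) (hN1 : k + 2 ≤ N) (hN2 : k ^ (k + 1) < N)
    (d : Fin k → Tr N 3 → Tr N 3 → ℝ) (I : Fin k → Set ℝ)
    (hd : ∀ j, FP (d j)) (hI : ∀ j, (I j).OrdConnected)
    (hnon : ∀ x y, lev N 3 true x y → ∀ j, d j x y ∈ I j)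
    (hedge : ∀ x y, lev N 3 false x y → ∃ j, d j x y ∉ I j) : False := by
  -- some component has no edge above the interval
  obtain ⟨s, hs⟩ : ∃ s : Fin N, ∀ j : Fin k, ∀ x y : Tr N 2,
      ¬ ∀ t ∈ I j, t < d j ((s, x) : Fin N × Tr N 2) ((s, y) : Fin N × Tr N 2) := by
    by_contra hno
    push Not at hno
    choose j x y hxy using hno
    have hinj : Function.Injective j := by
      intro s s' hss
      by_contra hne
      have hc : ∀ a b : Tr N 2, d (j s) ((s, a) : Fin N × Tr N 2) ((s', b) : Fin N × Tr N 2) ∈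
          I (j s) := fun a b => hnon _ _ ((lev_diff hne _ _).2 rfl) _
      have h1 := hxy s
      have h2 := hxy s'
      rw [← hss] at h2
      rcases (hd (j s)).four ((s, x s) : Fin N × Tr N 2) ((s, y s) : Fin N × Tr N 2)
        ((s', x s') : Fin N × Tr N 2) ((s', y s') : Fin N × Tr N 2) with h | h
      · have k1 := h1 _ (hc (x s) (x s'))
        have k2 := h2 _ (hc (y s) (y s'))
        linarith
      · have k1 := h1 _ (hc (x s) (y s'))
        have k2 := h2 _ (hc (y s) (x s'))
        linarith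
    have := Fintype.card_le_of_injective j hinj
    rw [Fintype.card_fin, Fintype.card_fin] at this
    omega
  let a0 : Fin N := ⟨0, by omega⟩
  let a1 : Fin N := ⟨1, by omega⟩
  have ha : a0 ≠ a1 := by simp [a0, a1]
  let X : Fin N → Tr N 3 := fun u => ((s, ((a0, ((u, ()) : Fin N × Tr N 0)) :
    Fin N × Tr N 1)) : Fin N × Tr N 2)
  let Y : Fin N → Tr N 3 := fun u => ((s, ((a1, ((u, ()) : Fin N × Tr N 0)) :
    Fin N × Tr N 1)) : Fin N × Tr N 2)
  have hXY : ∀ u v, lev N 3 false (X u) (Y v) := by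
    intro u v
    apply (lev_same s _ _).2
    exact (lev_diff ha _ _).2 rfl
  have hXX : ∀ u v, u ≠ v → lev N 3 true (X u) (X v) := by
    intro u v huv
    apply (lev_same s _ _).2
    apply (lev_same a0 _ _).2
    exact (lev_diff huv _ _).2 rfl
  have hYY : ∀ u v, u ≠ v → lev N 3 true (Y u) (Y v) := by
    intro u v huv
    apply (lev_same s _ _).2
    apply (lev_same a1 _ _).2
    exact (lev_diff huv _ _).2 rfl
  have hcol : ∀ u v, ∃ j, ∀ t ∈ I j, d j (X u) (Y v) < t := by
    intro u v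
    obtain ⟨j, hj⟩ := hedge _ _ (hXY u v)
    refine ⟨j, ?_⟩
    intro t ht
    by_contra hle
    push Not at hle
    have h1 := hs j ((a0, ((u, ()) : Fin N × Tr N 0)) : Fin N × Tr N 1)
      ((a1, ((v, ()) : Fin N × Tr N 0)) : Fin N × Tr N 1)
    push Not at h1
    obtain ⟨t', ht', hle'⟩ := h1
    exact hj ((hI j).out ht ht' ⟨hle, hle'⟩)
  choose c hc using hcol
  -- two right vertices with the same colours
  have hcard : Fintype.card (Fin (k + 1) → Fin k) < Fintype.card (Fin N) := by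
    rw [Fintype.card_fun, Fintype.card_fin, Fintype.card_fin, Fintype.card_fin]
    exact hN2
  obtain ⟨v, v', hvv, hF⟩ := Fintype.exists_ne_map_eq_of_card_lt
    (fun v : Fin N => fun u : Fin (k + 1) => c ⟨u.1, by omega⟩ v) hcard
  obtain ⟨u, u', huu, hG⟩ := Fintype.exists_ne_map_eq_of_card_lt
    (fun u : Fin (k + 1) => c ⟨u.1, by omega⟩ v) (by
      rw [Fintype.card_fin, Fintype.card_fin]
      omega)
  have hF1 := congrFun hF u
  have hF2 := congrFun hF u'
  obtain ⟨j, hj⟩ : ∃ j, j = c ⟨u.1, by omega⟩ v := ⟨_, rfl⟩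
  have e1 := hc ⟨u.1, by omega⟩ v
  have e2 := hc ⟨u.1, by omega⟩ v'
  have e3 := hc ⟨u'.1, by omega⟩ v
  have e4 := hc ⟨u'.1, by omega⟩ v'
  rw [← hF1, ← hj] at e2
  rw [← hG, ← hj] at e3
  rw [← hF2, ← hG, ← hj] at e4
  rw [← hj] at e1
  have hne : (⟨u.1, by omega⟩ : Fin N) ≠ ⟨u'.1, by omega⟩ := by
    intro h
    have h2 := congrArg (fun x : Fin N => x.1) h
    exact huu (Fin.ext h2)
  have n1 := hnon _ _ (hXX _ _ hne) j
  have n2 := hnon _ _ (hYY _ _ hvv) j
  rcases (hd j).four (X ⟨u.1, by omega⟩) (X ⟨u'.1, by omega⟩) (Y v) (Y v') with h | h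
  · have k1 := e1 _ n1
    have k2 := e4 _ n2
    linarith
  · have k1 := e2 _ n1
    have k2 := e3 _ n2
    linarith

end Pool.Agent.R39.PCG
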