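import Mathlib
import Pool.Agent.R39.PCG.AndMain

set_option autoImplicit false
set_option linter.unusedSectionVars false

/-! # The complete `N`-ary tree as a leaf-labelled tree -/

namespace Pool.Agent.R39.PCG

open Finset Classical

/-- lists over `Fin N` of length at most `H` -/
abbrev LW (N H : ℕ) : Type := {l : List (Fin N) // l.length ≤ H}

instance instFiniteLW (N H : ℕ) : Finite (LW N H) :=
  (List.finite_length_le (Fin N) H).to_subtype

/-- the complete `N`-ary tree of depth `H` -/
def LT (N H : ℕ) : SimpleGraph (LW N H) where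
  Adj x y := (∃ a, x.1 = a :: y.1) ∨ (∃ a, y.1 = a :: x.1)
  symm := ⟨by
    intro x y h
    exact h.symm⟩
  loopless := ⟨by
    intro x h
    rcases h with ⟨a, h⟩ | ⟨a, h⟩ <;>
    · have := congrArg List.length h
      simp at this⟩

variable {N H : ℕ}

lemma LT_isTree : (LT N H).IsTree := by
  have hreach : ∀ (l : List (Fin N)) (hl : l.length ≤ H),
      (LT N H).Reachable ⟨l, hl⟩ ⟨[], Nat.zero_le _⟩ := by
    intro l
    induction l with
    | nil =>
      intro hl
      exact SimpleGraph.Reachable.refl _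
    | cons a l ih =>
      intro hl
      have hl2 : l.length ≤ H := by
        rw [List.length_cons] at hl
        omega
      have h2 : (LT N H).Adj ⟨a :: l, hl⟩ ⟨l, hl2⟩ := Or.inl ⟨a, rfl⟩
      exact h2.reachable.trans (ih hl2)
  have : Nonempty (LW N H) := ⟨⟨[], Nat.zero_le _⟩⟩
  have hconn : (LT N H).Connected := by
    refine ⟨?_⟩
    intro i j
    exact (hreach i.1 i.2).trans (hreach j.1 j.2).symm
  rw [SimpleGraph.isTree_iff_connected_and_card]
  refine ⟨hconn, ?_⟩
  have htl : ∀ x : LW N H, x.1.tail.length ≤ H := by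
    intro x
    have := x.2
    rw [List.length_tail]
    omega
  have hbij : Nat.card {x : LW N H // x.1 ≠ []} = Nat.card (LT N H).edgeSet := by
    apply Nat.card_congr
    refine Equiv.ofBijective (fun i => ⟨s(i.1, ⟨i.1.1.tail, htl _⟩), ?_⟩) ⟨?_, ?_⟩
    · rw [SimpleGraph.mem_edgeSet]
      exact Or.inl ⟨i.1.1.head i.2, (List.cons_head_tail i.2).symm⟩
    · rintro ⟨i, hi⟩ ⟨j, hj⟩ hij
      have h := congrArg Subtype.val hij
      simp only [Sym2.eq_iff] at h
      rcases h with ⟨h1, _⟩ | ⟨h1, h2⟩
      · exact Subtype.ext h1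
      · exfalso
        have e1 := congrArg (fun x : LW N H => x.1.length) h1
        have e2 := congrArg (fun x : LW N H => x.1.length) h2
        simp only [List.length_tail] at e1 e2
        have h3 := List.length_pos_iff.2 hi
        have h4 := List.length_pos_iff.2 hj
        omega
    · rintro ⟨e, he⟩
      induction e using Sym2.ind with
      | _ a b =>
        rw [SimpleGraph.mem_edgeSet] at he
        rcases he with ⟨c, h1⟩ | ⟨c, h1⟩
        · refine ⟨⟨a, by rw [h1]; exact List.cons_ne_nil _ _⟩, ?_⟩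
          apply Subtype.ext
          simp only [Sym2.eq_iff]
          refine Or.inl ⟨trivial, Subtype.ext ?_⟩
          show a.1.tail = b.1
          rw [h1, List.tail_cons]
        · refine ⟨⟨b, by rw [h1]; exact List.cons_ne_nil _ _⟩, ?_⟩
          apply Subtype.ext
          simp only [Sym2.eq_iff]
          refine Or.inr ⟨trivial, Subtype.ext ?_⟩
          show b.1.tail = a.1
          rw [h1, List.tail_cons]
  rw [← hbij]
  have h1 : Nat.card {x : LW N H // x.1 ≠ []} + Nat.card {x : LW N H // x.1 = []} =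
      Nat.card (LW N H) := by
    have e := Equiv.sumCompl (fun x : LW N H => x.1 = [])
    rw [← Nat.card_congr e, Nat.card_sum, add_comm]
  have h2 : Nat.card {x : LW N H // x.1 = []} = 1 := by
    rw [Nat.card_eq_one_iff_unique]
    refine ⟨⟨?_⟩, ⟨⟨⟨[], Nat.zero_le _⟩, rfl⟩⟩⟩
    rintro ⟨x, hx⟩ ⟨y, hy⟩
    apply Subtype.ext
    apply Subtype.ext
    show x.1 = y.1
    rw [hx, hy]
  omega

lemma path_append {V : Type} {G : SimpleGraph V} {u v w : V} (p : G.Walk u v) (q : G.Walk v w)
    (hp : p.IsPath) (hq : q.IsPath) (h : ∀ z ∈ p.support, z ∈ q.support → z = v) :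
    (p.append q).IsPath := by
  rw [SimpleGraph.Walk.isPath_def, SimpleGraph.Walk.support_append, List.nodup_append]
  have hq1 := hq.support_nodup
  rw [← SimpleGraph.Walk.cons_tail_support, List.nodup_cons] at hq1
  refine ⟨hp.support_nodup, hq1.2, ?_⟩
  intro a ha b hb hab
  subst hab
  have h1 := h a ha (List.mem_of_mem_tail hb)
  rw [h1] at hb
  exact hq1.1 hb

/-- descending from `t ++ s` to `s` -/
lemma exists_down (s : List (Fin N)) : ∀ (t : List (Fin N)) (ht : (t ++ s).length ≤ H)
    (hs : s.length ≤ H), ∃ p : (LT N H).Walk ⟨t ++ s, ht⟩ ⟨s, hs⟩, p.IsPath ∧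
      p.length = t.length ∧ ∀ z ∈ p.support, ∃ t' t'' : List (Fin N), t = t'' ++ t' ∧
        z.1 = t' ++ s := by
  intro t
  induction t with
  | nil =>
    intro ht hs
    refine ⟨SimpleGraph.Walk.nil, SimpleGraph.Walk.IsPath.nil, rfl, ?_⟩
    intro z hz
    rw [SimpleGraph.Walk.support_nil, List.mem_singleton] at hz
    exact ⟨[], [], rfl, by rw [hz]⟩
  | cons a t ih =>
    intro ht hs
    have ht2 : (t ++ s).length ≤ H := by
      rw [List.cons_append, List.length_cons] at ht
      omega
    obtain ⟨p, hp, hl, hsup⟩ := ih ht2 hs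
    have hadj : (LT N H).Adj ⟨a :: t ++ s, ht⟩ ⟨t ++ s, ht2⟩ := Or.inl ⟨a, rfl⟩
    refine ⟨SimpleGraph.Walk.cons hadj p, ?_, ?_, ?_⟩
    · rw [SimpleGraph.Walk.cons_isPath_iff]
      refine ⟨hp, ?_⟩
      intro hmem
      obtain ⟨t', t'', h1, h2⟩ := hsup _ hmem
      have h3 := congrArg List.length h2
      have h4 := congrArg List.length h1
      simp only [List.length_append, List.length_cons] at h3 h4
      omega
    · rw [SimpleGraph.Walk.length_cons, hl, List.length_cons]
    · intro z hz
      rw [SimpleGraph.Walk.support_cons, List.mem_cons] at hz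
      rcases hz with hz | hz
      · exact ⟨a :: t, [], rfl, by rw [hz]⟩
      · obtain ⟨t', t'', h1, h2⟩ := hsup _ hz
        exact ⟨t', a :: t'', by rw [h1]; rfl, h2⟩

/-- the word of a leaf -/
def dig (N : ℕ) : (h : ℕ) → Tr N h → List (Fin N)
  | 0, _ => []
  | h + 1, x => dig N h x.2 ++ [x.1]

lemma dig_length : ∀ (h : ℕ) (x : Tr N h), (dig N h x).length = h
  | 0, _ => rfl
  | h + 1, x => by
    show (dig N h x.2 ++ [x.1]).length = h + 1
    rw [List.length_append, dig_length h x.2]
    rfl

lemma dig_injective : ∀ (h : ℕ) (x y : Tr N h), dig N h x = dig N h y → x = y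
  | 0, _, _ => fun _ => rfl
  | h + 1, x, y => by
    intro hxy
    have h1 : dig N h x.2 ++ [x.1] = dig N h y.2 ++ [y.1] := hxy
    have h2 := List.append_inj h1 (by rw [dig_length, dig_length])
    have h3 := dig_injective h _ _ h2.1
    have h4 : x.1 = y.1 := by simpa using h2.2
    exact Prod.ext h4 h3

lemma dig_surjective : ∀ (h : ℕ) (l : List (Fin N)), l.length = h → ∃ x, dig N h x = l
  | 0, l => by
    intro hl
    exact ⟨(), (List.length_eq_zero_iff.1 hl).symm⟩
  | h + 1, l => by
    intro hl
    rcases List.eq_nil_or_concat l with h0 | ⟨l', a, h0⟩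
    on_goal 2 => rw [List.concat_eq_append] at h0
    · rw [h0] at hl
      simp at hl
    · rw [h0, List.length_append] at hl
      have h1 : l'.length = h := by simpa using hl
      obtain ⟨x, hx⟩ := dig_surjective h l' h1
      refine ⟨((a, x) : Fin N × Tr N h), ?_⟩
      show dig N h x ++ [a] = l
      rw [hx, h0]

/-- the height of the lowest common ancestor -/
def lca (N : ℕ) : (h : ℕ) → Tr N h → Tr N h → ℕ
  | 0, _, _ => 0
  | h + 1, x, y => if x.1 = y.1 then lca N h x.2 y.2 else h + 1

lemma lca_pos : ∀ (h : ℕ) (x y : Tr N h), x ≠ y → 1 ≤ lca N h x y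
  | 0, _, _ => fun h => (h rfl).elim
  | h + 1, x, y => by
    intro hxy
    show 1 ≤ if x.1 = y.1 then lca N h x.2 y.2 else h + 1
    split_ifs with h1
    · apply lca_pos h
      intro h2
      exact hxy (Prod.ext h1 h2)
    · omega

lemma lca_self : ∀ (h : ℕ) (x : Tr N h), lca N h x x = 0
  | 0, _ => rfl
  | h + 1, x => by
    show (if x.1 = x.1 then lca N h x.2 x.2 else h + 1) = 0
    rw [if_pos rfl, lca_self h]

lemma lca_symm : ∀ (h : ℕ) (x y : Tr N h), lca N h x y = lca N h y x
  | 0, _, _ => rfl
  | h + 1, x, y => by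
    show (if x.1 = y.1 then lca N h x.2 y.2 else h + 1) =
      (if y.1 = x.1 then lca N h y.2 x.2 else h + 1)
    by_cases h1 : x.1 = y.1
    · rw [if_pos h1, if_pos h1.symm, lca_symm h]
    · rw [if_neg h1, if_neg (Ne.symm h1)]

lemma lca_le : ∀ (h : ℕ) (x y : Tr N h), lca N h x y ≤ h
  | 0, _, _ => le_refl 0
  | h + 1, x, y => by
    show (if x.1 = y.1 then lca N h x.2 y.2 else h + 1) ≤ h + 1
    split_ifs with h1
    · exact (lca_le h _ _).trans (Nat.le_succ h)
    · exact le_refl _

/-- `lev` in terms of the height of the lowest common ancestor -/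
lemma lev_iff : ∀ (h : ℕ) (b : Bool) (x y : Tr N h),
    lev N h b x y ↔ 1 ≤ lca N h x y ∧ (Even (h + lca N h x y) ↔ b = true)
  | 0, b, x, y => by
    show False ↔ 1 ≤ 0 ∧ _
    simp
  | h + 1, b, x, y => by
    show (if x.1 = y.1 then lev N h (!b) x.2 y.2 else b = true) ↔
      1 ≤ (if x.1 = y.1 then lca N h x.2 y.2 else h + 1) ∧
        (Even (h + 1 + (if x.1 = y.1 then lca N h x.2 y.2 else h + 1)) ↔ b = true)
    by_cases h1 : x.1 = y.1
    · rw [if_pos h1, if_pos h1, lev_iff h]
      have e : h + 1 + lca N h x.2 y.2 = (h + lca N h x.2 y.2) + 1 := by ring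
      rw [e, Nat.even_add_one]
      cases b <;> simp
    · rw [if_neg h1, if_neg h1]
      have e : Even (h + 1 + (h + 1)) := ⟨h + 1, rfl⟩
      simp [e]

/-- the path between two leaves -/
lemma exists_path : ∀ (h : ℕ) (x y : Tr N h), x ≠ y → ∀ (s : List (Fin N))
    (hx : (dig N h x ++ s).length ≤ H) (hy : (dig N h y ++ s).length ≤ H),
    ∃ p : (LT N H).Walk ⟨dig N h x ++ s, hx⟩ ⟨dig N h y ++ s, hy⟩, p.IsPath ∧
      p.length = 2 * lca N h x y
  | 0, _, _ => fun h => (h rfl).elim
  | h + 1, x, y => by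
    intro hxy s hx hy
    have hs : s.length ≤ H := by
      rw [List.length_append] at hx
      omega
    by_cases h1 : x.1 = y.1
    · have h2 : x.2 ≠ y.2 := fun h2 => hxy (Prod.ext h1 h2)
      have ex : dig N (h + 1) x ++ s = dig N h x.2 ++ (x.1 :: s) := by
        show (dig N h x.2 ++ [x.1]) ++ s = _
        rw [List.append_assoc]
        rfl
      have ey : dig N (h + 1) y ++ s = dig N h y.2 ++ (x.1 :: s) := by
        show (dig N h y.2 ++ [y.1]) ++ s = _
        rw [List.append_assoc, h1]
        rfl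
      have hx2 : (dig N h x.2 ++ (x.1 :: s)).length ≤ H := by rw [← ex]; exact hx
      have hy2 : (dig N h y.2 ++ (x.1 :: s)).length ≤ H := by rw [← ey]; exact hy
      obtain ⟨p, hp, hl⟩ := exists_path h x.2 y.2 h2 (x.1 :: s) hx2 hy2
      have ex' : (⟨dig N (h + 1) x ++ s, hx⟩ : LW N H) = ⟨dig N h x.2 ++ (x.1 :: s), hx2⟩ :=
        Subtype.ext ex
      have ey' : (⟨dig N (h + 1) y ++ s, hy⟩ : LW N H) = ⟨dig N h y.2 ++ (x.1 :: s), hy2⟩ :=
        Subtype.ext ey
      rw [ex', ey']
      refine ⟨p, hp, ?_⟩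
      rw [hl]
      show 2 * lca N h x.2 y.2 = 2 * (if x.1 = y.1 then lca N h x.2 y.2 else h + 1)
      rw [if_pos h1]
    · obtain ⟨p, hp, hpl, hps⟩ := exists_down s (dig N (h + 1) x) hx hs
      obtain ⟨q, hq, hql, hqs⟩ := exists_down s (dig N (h + 1) y) hy hs
      refine ⟨p.append q.reverse, ?_, ?_⟩
      · apply path_append p q.reverse hp hq.reverse
        intro z hz hz2
        rw [SimpleGraph.Walk.support_reverse, List.mem_reverse] at hz2
        obtain ⟨t, t1, ht, hzt⟩ := hps z hz
        obtain ⟨u, u1, hu, hzu⟩ := hqs z hz2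
        rw [hzt] at hzu
        have htu : t = u := List.append_cancel_right hzu
        subst htu
        rcases List.eq_nil_or_concat t with h0 | ⟨t', a, h0⟩
        on_goal 2 => rw [List.concat_eq_append] at h0
        · apply Subtype.ext
          rw [hzt, h0]
          rfl
        · exfalso
          have k1 : dig N h x.2 ++ [x.1] = t1 ++ t := ht
          have k2 : dig N h y.2 ++ [y.1] = u1 ++ t := hu
          rw [h0, ← List.append_assoc] at k1 k2
          have k3 : x.1 = a := by
            have := congrArg (fun l : List (Fin N) => l.getLast?) k1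
            simpa using this
          have k4 : y.1 = a := by
            have := congrArg (fun l : List (Fin N) => l.getLast?) k2
            simpa using this
          exact h1 (k3.trans k4.symm)
      · rw [SimpleGraph.Walk.length_append, SimpleGraph.Walk.length_reverse, hpl, hql,
          dig_length, dig_length]
        show h + 1 + (h + 1) = 2 * (if x.1 = y.1 then lca N h x.2 y.2 else h + 1)
        rw [if_neg h1]
        ring

end Pool.Agent.R39.PCG
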