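import Mathlib
import Pool.Agent.R39.PCG.Prefix

set_option autoImplicit false
set_option linter.unusedSectionVars false

/-! # The alternating cograph -/

namespace Pool.Agent.R39.PCG

open Finset Classical

variable {N H : ℕ}

lemma LT_neighborSet_leaf (hH : 1 ≤ H) (x : LW N H) (hx : x.1.length = H) :
    ((LT N H).neighborSet x).ncard = 1 := by
  have htl : x.1.tail.length ≤ H := by
    rw [List.length_tail]
    omega
  rw [Set.ncard_eq_one]
  refine ⟨⟨x.1.tail, htl⟩, ?_⟩
  ext y
  rw [SimpleGraph.mem_neighborSet, Set.mem_singleton_iff]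
  constructor
  · intro h
    rcases h with ⟨a, h⟩ | ⟨a, h⟩
    · apply Subtype.ext
      show y.1 = x.1.tail
      rw [h, List.tail_cons]
    · exfalso
      have h1 := y.2
      rw [h, List.length_cons] at h1
      omega
  · intro h
    have hne : x.1 ≠ [] := by
      intro h0
      rw [h0] at hx
      simp at hx
      omega
    refine Or.inl ⟨x.1.head hne, ?_⟩
    rw [h]
    exact (List.cons_head_tail hne).symm

lemma LT_neighborSet_inner (hN : 2 ≤ N) (x : LW N H) (hx : x.1.length ≠ H) :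
    ((LT N H).neighborSet x).ncard ≠ 1 := by
  intro hc
  rw [Set.ncard_eq_one] at hc
  obtain ⟨z, hz⟩ := hc
  have h1 : ∀ a : Fin N, (a :: x.1).length ≤ H := by
    intro a
    have := x.2
    rw [List.length_cons]
    omega
  have h2 : ∀ a : Fin N, (⟨a :: x.1, h1 a⟩ : LW N H) = z := by
    intro a
    have : (⟨a :: x.1, h1 a⟩ : LW N H) ∈ (LT N H).neighborSet x := by
      rw [SimpleGraph.mem_neighborSet]
      exact Or.inr ⟨a, rfl⟩
    rw [hz] at this
    exact this
  have h3 := (h2 ⟨0, by omega⟩).trans (h2 ⟨1, by omega⟩).symm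
  have h4 := congrArg Subtype.val h3
  simp at h4

/-- the complete `N`-ary tree of depth `H` with unit weights, as a tree with leaves `Tr N H` -/
noncomputable def cTree (N H : ℕ) (hN : 2 ≤ N) (hH : 1 ≤ H) : WTree (Tr N H) where
  W := LW N H
  finite := inferInstance
  T := LT N H
  isTree := LT_isTree
  w := fun _ => 1
  nonneg := fun _ _ => zero_le_one
  leaf := fun x => ⟨dig N H x, (dig_length H x).le⟩
  leaf_injective := by
    intro x y hxy
    exact dig_injective H x y (congrArg Subtype.val hxy)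
  range_leaf := by
    ext x
    rw [Set.mem_range, Set.mem_ofPred_eq]
    constructor
    · rintro ⟨y, rfl⟩
      exact LT_neighborSet_leaf hH _ (dig_length H y)
    · intro h
      have h1 : x.1.length = H := by
        by_contra hne
        exact LT_neighborSet_inner hN x hne h
      obtain ⟨y, hy⟩ := dig_surjective H x.1 h1
      exact ⟨y, Subtype.ext hy⟩

lemma cTree_d (hN : 2 ≤ N) (hH : 1 ≤ H) (x y : Tr N H) (hxy : x ≠ y) :
    (cTree N H hN hH).d x y = 2 * (lca N H x y : ℝ) := by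
  have hx : (dig N H x ++ []).length ≤ H := by
    rw [List.append_nil, dig_length]
  have hy : (dig N H y ++ []).length ≤ H := by
    rw [List.append_nil, dig_length]
  obtain ⟨p, hp, hl⟩ := exists_path (H := H) H x y hxy [] hx hy
  have ex : (⟨dig N H x ++ [], hx⟩ : LW N H) = ⟨dig N H x, (dig_length H x).le⟩ :=
    Subtype.ext (List.append_nil _)
  have ey : (⟨dig N H y ++ [], hy⟩ : LW N H) = ⟨dig N H y, (dig_length H y).le⟩ :=
    Subtype.ext (List.append_nil _)
  have key : ∃ q : (LT N H).Walk ⟨dig N H x, (dig_length H x).le⟩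
      ⟨dig N H y, (dig_length H y).le⟩, q.IsPath ∧ q.length = 2 * lca N H x y := by
    rw [← ex, ← ey]
    exact ⟨p, hp, hl⟩
  obtain ⟨q, hq, hql⟩ := key
  have h1 : (q.edges.map (fun _ => (1 : ℝ))).sum = 2 * (lca N H x y : ℝ) := by
    rw [List.map_const', List.sum_replicate, SimpleGraph.Walk.length_edges, hql]
    simp
  exact ((cTree N H hN hH).d_eq x y q hq).trans h1

/-- the alternating cograph of depth `h`: the root is a disjoint union -/
def cog (N h : ℕ) : SimpleGraph (Tr N h) where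
  Adj x y := lev N h false x y
  symm := ⟨by
    intro x y hxy
    rw [lev_iff] at hxy ⊢
    rw [lca_symm]
    exact hxy⟩
  loopless := ⟨by
    intro x hx
    rw [lev_iff, lca_self] at hx
    omega⟩

lemma cog_adj {h : ℕ} (x y : Tr N h) : (cog N h).Adj x y ↔ lev N h false x y := Iff.rfl

lemma cog_compl_adj {h : ℕ} (x y : Tr N h) : (cog N h)ᶜ.Adj x y ↔ lev N h true x y := by
  rw [SimpleGraph.compl_adj, cog_adj, lev_iff, lev_iff]
  constructor
  · rintro ⟨hne, h1⟩
    have h2 := lca_pos _ _ _ hne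
    refine ⟨h2, ?_⟩
    by_contra h3
    apply h1
    refine ⟨h2, ?_⟩
    simpa using h3
  · rintro ⟨h1, h2⟩
    refine ⟨?_, ?_⟩
    · rintro rfl
      rw [lca_self] at h1
      omega
    · rintro ⟨_, h3⟩
      simp at h2 h3
      exact (Nat.not_even_iff_odd.2 h3) h2

/-- the alternating cograph of depth `2k+1` is a `k`-interval-PCG -/
lemma cog_intervalPCG (k : ℕ) (hN : 2 ≤ N) : IsIntervalPCG k (cog N (2 * k + 1)) := by
  refine ⟨cTree N (2 * k + 1) hN (by omega), fun i => {(4 * ((i : ℕ) + 1) : ℝ)}, ?_, ?_, ?_⟩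
  · intro i
    refine ⟨Set.ordConnected_singleton, ?_⟩
    intro t ht
    rw [Set.mem_singleton_iff] at ht
    rw [Set.mem_Ici, ht]
    positivity
  · intro i j hij
    rw [Set.disjoint_singleton]
    intro h
    apply hij
    have h2 : ((i : ℕ) : ℝ) = ((j : ℕ) : ℝ) := by linarith
    exact Fin.ext (by exact_mod_cast h2)
  · intro x y hxy
    rw [cTree_d _ _ x y hxy, cog_adj, lev_iff]
    have h1 := lca_pos _ _ _ hxy
    have h2 := lca_le _ x y
    constructor
    · rintro ⟨_, h3⟩
      have h4 : ¬ Even (2 * k + 1 + lca N (2 * k + 1) x y) := by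
        intro h5
        simpa using h3.1 h5
      rw [Nat.not_even_iff_odd] at h4
      obtain ⟨m, hm⟩ := h4
      have hm2 : lca N (2 * k + 1) x y = 2 * (m - k) := by omega
      refine ⟨⟨m - k - 1, by omega⟩, ?_⟩
      rw [Set.mem_singleton_iff, hm2]
      have h6 : m - k - 1 + 1 = m - k := by omega
      have h7 : (((m - k - 1 : ℕ) : ℝ) + 1) = ((m - k : ℕ) : ℝ) := by
        rw [← h6]
        push_cast
        ring
      show (2 : ℝ) * ((2 * (m - k) : ℕ) : ℝ) = 4 * (((m - k - 1 : ℕ) : ℝ) + 1)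
      rw [h7]
      push_cast
      ring
    · rintro ⟨i, hi⟩
      rw [Set.mem_singleton_iff] at hi
      have h3 : (lca N (2 * k + 1) x y : ℝ) = ((2 * ((i : ℕ) + 1) : ℕ) : ℝ) := by
        push_cast
        linarith
      have h4 : lca N (2 * k + 1) x y = 2 * ((i : ℕ) + 1) := by exact_mod_cast h3
      refine ⟨h1, ?_⟩
      constructor
      · intro h5
        exfalso
        rw [h4] at h5
        obtain ⟨m, hm⟩ := h5
        omega
      · intro h5
        simp at h5

lemma IsIntervalPCG.isOrPCG {V : Type} {G : SimpleGraph V} {k : ℕ} (h : IsIntervalPCG k G) :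
    IsOrPCG k G := by
  obtain ⟨τ, I, hI, _, h2⟩ := h
  exact ⟨fun _ => τ, I, hI, h2⟩

lemma IsIntervalPCG.isPCG {V : Type} {G : SimpleGraph V} (h : IsIntervalPCG 1 G) : IsPCG G := by
  obtain ⟨τ, I, hI, _, h2⟩ := h
  refine ⟨τ, I 0, hI 0, ?_⟩
  intro u v huv
  rw [h2 u v huv]
  constructor
  · rintro ⟨i, hi⟩
    rw [Subsingleton.elim i 0] at hi
    exact hi
  · intro h
    exact ⟨0, h⟩

lemma IsPCG.isAndPCG {V : Type} {G : SimpleGraph V} {k : ℕ} (hk : 1 ≤ k) (h : IsPCG G) :
    IsAndPCG k G := by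
  obtain ⟨τ, I, hI, h2⟩ := h
  refine ⟨fun _ => τ, fun _ => I, fun _ => hI, ?_⟩
  intro u v huv
  rw [h2 u v huv]
  constructor
  · intro h _
    exact h
  · intro h
    exact h ⟨0, hk⟩

/-- **main theorem, OR form** -/
theorem or_not_closed (k : ℕ) : ∃ N, 2 ≤ N ∧ IsIntervalPCG k (cog N (2 * k + 1)) ∧
    ¬ IsOrPCG k (cog N (2 * k + 1))ᶜ := by
  obtain ⟨N0, hN0⟩ := or_main (Fin k) k
  refine ⟨max N0 2, le_max_right _ _, cog_intervalPCG k (le_max_right _ _), ?_⟩
  rintro ⟨τ, I, hI, h⟩
  refine hN0 (max N0 2) (le_max_left _ _) univ (by rw [card_univ, Fintype.card_fin])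
    (fun j => (τ j).d) I (fun j _ => (τ j).fp) (fun j _ => (hI j).1) ?_ ?_
  · intro x y hxy j _ hj
    have hne : x ≠ y := by
      intro h0
      have : (cog (max N0 2) (2 * k + 1)).Adj x y := hxy
      exact this.ne h0
    have h1 := (h x y hne).2 ⟨j, hj⟩
    rw [SimpleGraph.compl_adj] at h1
    exact h1.2 hxy
  · intro x y hxy
    have h1 := (cog_compl_adj x y).2 hxy
    obtain ⟨j, hj⟩ := (h x y h1.ne).1 h1
    exact ⟨j, mem_univ _, hj⟩

/-- **main theorem, AND form** -/
theorem and_not_closed (k : ℕ) : ∃ N, 2 ≤ N ∧ IsPCG (cog N 3) ∧ ¬ IsAndPCG k (cog N 3)ᶜ := by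
  refine ⟨max (k + 2) (k ^ (k + 1) + 1), by omega,
    (cog_intervalPCG 1 (by omega)).isPCG, ?_⟩
  rintro ⟨τ, I, hI, h⟩
  refine and_main k _ (le_max_left _ _) (by omega) (fun j => (τ j).d) I (fun j => (τ j).fp)
    (fun j => (hI j).1) ?_ ?_
  · intro x y hxy j
    have h1 := (cog_compl_adj x y).2 hxy
    exact (h x y h1.ne).1 h1 j
  · intro x y hxy
    have h0 : (cog (max (k + 2) (k ^ (k + 1) + 1)) 3).Adj x y := hxy
    by_contra hno
    push Not at hno
    have h1 := (h x y h0.ne).2 hno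
    rw [SimpleGraph.compl_adj] at h1
    exact h1.2 hxy

end Pool.Agent.R39.PCG
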